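import Pool.Graph.R_seed8.Y981.Sup2
import Pool.Agent.H131.V2.Gen

/-!
The boundary path of the O(n) model for `n = 0`, `x = x_c(0)` (critical self-avoiding walk on the
honeycomb lattice) in discrete domains `D` of arbitrary shape, between two vertices which are
accessible from infinity outside `D` by paths which never go in one given direction: the partition
function is at most `24 |D|`, and the path stays in any given connected open set (for instance a thin
tube around a curve) with polynomial probability in the mesh.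
-/

set_option autoImplicit false

namespace Pool.Agent.Results.MP_4960b8_pr.AccessibleEnds

open scoped ENNReal

/-- Adjacency in the honeycomb lattice (brick-wall coordinates). -/
def Nbr (p q : ℤ × ℤ) : Prop :=
  (p.2 = q.2 ∧ (p.1 - q.1 = 1 ∨ q.1 - p.1 = 1)) ∨
    (p.1 = q.1 ∧ ((q.2 = p.2 + 1 ∧ Even (p.1 + p.2)) ∨ (p.2 = q.2 + 1 ∧ Even (q.1 + q.2))))

/-- The self-avoiding trajectories from `a` to `b` in `D`, as lists of vertices (the configurations of
the model for `n = 0`). -/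
def Traj (D : Set (ℤ × ℤ)) (a b : ℤ × ℤ) : Set (List (ℤ × ℤ)) :=
  {l | l.head? = some a ∧ l.getLast? = some b ∧ l.Nodup ∧ l.IsChain Nbr ∧ ∀ p ∈ l, p ∈ D}

/-- The critical fugacity `1 / μ`. -/
noncomputable def xc : ℝ≥0∞ := ENNReal.ofReal (1 / Real.sqrt (2 + Real.sqrt 2))

/-- The critical partition function: the sum of `xc ^ (number of steps)` over the trajectories. -/
noncomputable def Z (D : Set (ℤ × ℤ)) (a b : ℤ × ℤ) : ℝ≥0∞ :=
  ∑' l : Traj D a b, xc ^ (l.1.length - 1)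

/-- The probability that the critical trajectory in `D` from `a` to `b` stays in `T`. -/
noncomputable def P (D : Set (ℤ × ℤ)) (a b : ℤ × ℤ) (T : Set (ℤ × ℤ)) : ℝ≥0∞ :=
  Z (D ∩ T) a b / Z D a b

/-- The position of the vertices in the plane: the honeycomb lattice with unit edge length (`Nbr p q`
if and only if the points `emb p` and `emb q` have distance `1`). -/
noncomputable def emb (v : ℤ × ℤ) : ℂ :=
  ⟨Real.sqrt 3 / 2 * v.1, 3 / 2 * v.2 + if Even (v.1 + v.2) then 1 / 2 else 0⟩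

/-- The coordinate in the direction `u = exp (- i π / 6)`, one of the directions of the edges. -/
noncomputable def lv (z : ℂ) : ℝ := (Real.sqrt 3 * z.re - z.im) / 2

/-- The open half-disc with centre `a` and radius `r` on the side `ε u` of `a` (`ε = 1` or
`ε = -1`). -/
def HD (a : ℂ) (ε r : ℝ) : Set ℂ := {z | ‖z - a‖ < r ∧ 0 < ε * (lv z - lv a)}

/-- The vertices in the half-disc (with its diameter) with centre `δ p` and radius `r`, on the
side `ε u` of `p`, for the lattice with mesh `δ`. -/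
def Hd (δ ε r : ℝ) (p : ℤ × ℤ) : Set (ℤ × ℤ) :=
  {v | ‖(δ : ℂ) * emb v - δ * emb p‖ < r ∧ 0 ≤ ε * (lv (emb v) - lv (emb p))}

/-- `p` is the lattice point with an edge in the direction `- ε u`: a boundary vertex of a half-plane
on the side `ε u`. -/
def Bd (ε : ℝ) (p : ℤ × ℤ) : Prop :=
  (ε = 1 ∧ Odd (p.1 + p.2)) ∨ (ε = -1 ∧ Even (p.1 + p.2))

/-- `v` is accessible from infinity outside `D` by a path which never goes in the direction of the
unit vector `w`: there is an infinite self-avoiding path which starts at `v`, has no step equal to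
`w` and does not visit `D` after time `0`. -/
def Access (w : ℂ) (D : Set (ℤ × ℤ)) (v : ℤ × ℤ) : Prop :=
  ∃ Γ : ℕ → ℤ × ℤ, Γ 0 = v ∧ Function.Injective Γ ∧
    (∀ i, Nbr (Γ i) (Γ (i + 1)) ∧ emb (Γ (i + 1)) - emb (Γ i) ≠ w) ∧ ∀ i, 1 ≤ i → Γ i ∉ D

/-- The six directions of the edges: `60 j - 30` degrees. -/
noncomputable def edgeDir (j : Fin 6) : ℂ :=
  Complex.exp ((((2 * (j : ℕ) : ℝ) - 1) * (Real.pi / 6) : ℝ) * Complex.I)

/-! ### Proofs -/

open H978R2.Hex H131.V1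

theorem adj_of_nbr {p q : ℤ × ℤ} (h : Nbr p q) : Adj p q := by
  rw [adj_iff]
  unfold Nbr at h
  simp only [Int.even_iff] at h
  omega

theorem step_right_even {p q : V} (h0 : (p.1 + p.2) % 2 = 0) (h1 : q.1 = p.1 + 1) (h2 : q.2 = p.2) :
    emb q - emb p = ⟨Real.sqrt 3 / 2, -1 / 2⟩ := by
  have e1 : ¬ Even (q.1 + q.2) := by rw [Int.even_iff]; omega
  have e2 : Even (p.1 + p.2) := by rw [Int.even_iff]; omega
  unfold emb
  rw [if_neg e1, if_pos e2, h1, h2]
  apply Complex.ext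
  · simp only [Complex.sub_re]; push_cast; ring
  · simp only [Complex.sub_im]; ring

theorem step_right_odd {p q : V} (h0 : (p.1 + p.2) % 2 = 1) (h1 : q.1 = p.1 + 1) (h2 : q.2 = p.2) :
    emb q - emb p = ⟨Real.sqrt 3 / 2, 1 / 2⟩ := by
  have e1 : Even (q.1 + q.2) := by rw [Int.even_iff]; omega
  have e2 : ¬ Even (p.1 + p.2) := by rw [Int.even_iff]; omega
  unfold emb
  rw [if_pos e1, if_neg e2, h1, h2]
  apply Complex.ext
  · simp only [Complex.sub_re]; push_cast; ring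
  · simp only [Complex.sub_im]; ring

theorem step_up_even {p q : V} (h0 : (p.1 + p.2) % 2 = 0) (h1 : q.1 = p.1) (h2 : q.2 = p.2 + 1) :
    emb q - emb p = ⟨0, 1⟩ := by
  have e1 : ¬ Even (q.1 + q.2) := by rw [Int.even_iff]; omega
  have e2 : Even (p.1 + p.2) := by rw [Int.even_iff]; omega
  unfold emb
  rw [if_neg e1, if_pos e2, h1, h2]
  apply Complex.ext
  · simp only [Complex.sub_re]; ring
  · simp only [Complex.sub_im]; push_cast; ring

theorem step_rev {p q : V} {z : ℂ} (h : emb q - emb p = z) : emb p - emb q = -z := by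
  rw [← h]; ring

theorem dir_zero : edgeDir 0 = ⟨Real.sqrt 3 / 2, -1 / 2⟩ := by
  unfold edgeDir
  have e : ((2 * ((0 : Fin 6) : ℕ) : ℝ) - 1) * (Real.pi / 6) = -(Real.pi / 6) := by
    norm_num
  rw [e]
  apply Complex.ext
  · rw [Complex.exp_ofReal_mul_I_re, Real.cos_neg, Real.cos_pi_div_six]
  · rw [Complex.exp_ofReal_mul_I_im, Real.sin_neg, Real.sin_pi_div_six]; norm_num

theorem dir_one : edgeDir 1 = ⟨Real.sqrt 3 / 2, 1 / 2⟩ := by
  unfold edgeDir
  have e : ((2 * ((1 : Fin 6) : ℕ) : ℝ) - 1) * (Real.pi / 6) = Real.pi / 6 := by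
    norm_num
  rw [e]
  apply Complex.ext
  · rw [Complex.exp_ofReal_mul_I_re, Real.cos_pi_div_six]
  · rw [Complex.exp_ofReal_mul_I_im, Real.sin_pi_div_six]

theorem dir_two : edgeDir 2 = ⟨0, 1⟩ := by
  unfold edgeDir
  have e : ((2 * ((2 : Fin 6) : ℕ) : ℝ) - 1) * (Real.pi / 6) = Real.pi / 2 := by
    norm_num; ring
  rw [e]
  apply Complex.ext
  · rw [Complex.exp_ofReal_mul_I_re, Real.cos_pi_div_two]
  · rw [Complex.exp_ofReal_mul_I_im, Real.sin_pi_div_two]

theorem dir_opp (j : ℕ) : Complex.exp ((((2 * ((j + 3 : ℕ) : ℝ)) - 1) * (Real.pi / 6) : ℝ) *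
    Complex.I) = -Complex.exp ((((2 * (j : ℝ)) - 1) * (Real.pi / 6) : ℝ) * Complex.I) := by
  have e : (((((2 * ((j + 3 : ℕ) : ℝ)) - 1) * (Real.pi / 6) : ℝ)) : ℂ) * Complex.I =
      ((((2 * (j : ℝ)) - 1) * (Real.pi / 6) : ℝ) : ℂ) * Complex.I + Real.pi * Complex.I := by
    push_cast
    ring
  rw [e, Complex.exp_add, Complex.exp_pi_mul_I]
  ring

theorem dir_three : edgeDir 3 = -edgeDir 0 := dir_opp 0

theorem dir_four : edgeDir 4 = -edgeDir 1 := dir_opp 1

theorem dir_five : edgeDir 5 = -edgeDir 2 := dir_opp 2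

/-- a step of the type `Stp j` has the direction `edgeDir j` -/
theorem emb_of_stp (j : Fin 6) (p q : V) (h : H131.V2.Stp j p q) : emb q - emb p = edgeDir j := by
  fin_cases j
  · obtain ⟨h0, h1, h2⟩ := h
    exact (step_right_even h0 h1 h2).trans dir_zero.symm
  · obtain ⟨h0, h1, h2⟩ := h
    exact (step_right_odd h0 h1 h2).trans dir_one.symm
  · obtain ⟨h0, h1, h2⟩ := h
    exact (step_up_even h0 h1 h2).trans dir_two.symm
  · obtain ⟨h0, h1, h2⟩ := h
    have h3 := step_rev (step_right_even (p := q) (q := p) (by omega) (by omega) h2.symm)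
    refine h3.trans ?_
    show _ = edgeDir 3
    rw [dir_three, dir_zero]
  · obtain ⟨h0, h1, h2⟩ := h
    have h3 := step_rev (step_right_odd (p := q) (q := p) (by omega) (by omega) h2.symm)
    refine h3.trans ?_
    show _ = edgeDir 4
    rw [dir_four, dir_one]
  · obtain ⟨h0, h1, h2⟩ := h
    have h3 := step_rev (step_up_even (p := q) (q := p) (by omega) h1.symm (by omega))
    refine h3.trans ?_
    show _ = edgeDir 5
    rw [dir_five, dir_two]

theorem access_of {D : Set (ℤ × ℤ)} (hD : D.Finite) {j : Fin 6} {v : ℤ × ℤ}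
    (h : Access (edgeDir j) D v) : H131.V2.Access j hD.toFinset v := by
  obtain ⟨Γ, h0, h1, h2, h3⟩ := h
  refine ⟨Γ, h0, h1, fun i => ⟨adj_of_nbr (h2 i).1, fun hs => (h2 i).2 (emb_of_stp j _ _ hs)⟩, ?_⟩
  intro i hi hm
  exact h3 i hi (hD.mem_toFinset.mp hm)

theorem xc_eq : xc = ENNReal.ofReal (mu0⁻¹) := by
  unfold xc mu0
  rw [one_div]

/-- the upper bound -/
theorem upper (D : Set (ℤ × ℤ)) (hD : D.Finite) (p q : ℤ × ℤ)
    (h : ∃ j, Access (edgeDir j) D p ∧ Access (edgeDir j) D q) : Z D p q ≤ 24 * D.ncard := by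
  classical
  obtain ⟨j, hp, hq⟩ := h
  have hmu : 0 < mu0⁻¹ := inv_pos.mpr mu0_pos
  unfold Z
  rw [ENNReal.tsum_eq_iSup_sum]
  refine iSup_le fun s => ?_
  have h1 := H131.V2.core_access hD.toFinset j (access_of hD hp) (access_of hD hq)
    (s.image (fun l => l.1)) (by
      intro l hl
      obtain ⟨m, hm, rfl⟩ := Finset.mem_image.mp hl
      obtain ⟨g1, g2, g3, g4, g5⟩ := m.2
      refine ⟨g1, g2, g3, g4.imp (fun a b hab => adj_of_nbr hab), fun u hu => ?_⟩
      exact hD.mem_toFinset.mpr (g5 u hu))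
  rw [Finset.sum_image (fun a _ b _ h => Subtype.ext h)] at h1
  have h2 : ∑ l ∈ s, xc ^ (l.1.length - 1) =
      ENNReal.ofReal (∑ l ∈ s, (mu0⁻¹) ^ (l.1.length - 1)) := by
    rw [ENNReal.ofReal_sum_of_nonneg (fun _ _ => (pow_pos hmu _).le)]
    refine Finset.sum_congr rfl fun l _ => ?_
    rw [xc_eq, ENNReal.ofReal_pow hmu.le]
  rw [h2]
  refine (ENNReal.ofReal_le_ofReal h1).trans (le_of_eq ?_)
  rw [ENNReal.ofReal_mul (by norm_num), Set.ncard_eq_toFinset_card D hD]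
  congr 1
  · norm_num
  · rw [ENNReal.ofReal_natCast]

/-- a discrete domain in a disc has at most `((8 M + 5) / δ)²` vertices -/
theorem card_disc {δ M : ℝ} (hδ : 0 < δ) (hδ2 : δ ≤ 1 / 2) (hM : 0 ≤ M) {D : Set (ℤ × ℤ)}
    (h : ∀ v ∈ D, ‖(δ : ℂ) * emb v‖ ≤ M) :
    D.Finite ∧ (D.ncard : ℝ) ≤ ((8 * M + 5) / δ) ^ 2 := by
  have hL1 : 1 / δ ≤ (⌈1 / δ⌉₊ : ℝ) := Nat.le_ceil _
  have hL2 : (⌈1 / δ⌉₊ : ℝ) < 1 / δ + 1 := Nat.ceil_lt_add_one (by positivity)
  have h2 : 2 ≤ 1 / δ := by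
    rw [le_div_iff₀ hδ]
    linarith
  set B : ℕ := ⌊(2 * M + 1) * (⌈1 / δ⌉₊ : ℝ)⌋₊ with hB
  have hB1 : (B : ℝ) ≤ (2 * M + 1) * (⌈1 / δ⌉₊ : ℝ) := Nat.floor_le (by positivity)
  have key : ∀ x : ℤ, |(x : ℝ)| ≤ (2 * M + 1) * (⌈1 / δ⌉₊ : ℝ) → |x| ≤ (B : ℤ) := by
    intro x hx
    have h3 : ((x.natAbs : ℕ) : ℝ) ≤ (2 * M + 1) * (⌈1 / δ⌉₊ : ℝ) := by
      rw [Nat.cast_natAbs, Int.cast_abs]
      exact hx
    have h4 : x.natAbs ≤ B := Nat.le_floor h3
    have h5 : |x| = (x.natAbs : ℤ) := Int.abs_eq_natAbs x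
    rw [h5]
    exact_mod_cast h4
  have hsub : D ⊆ ((Finset.Icc (-(B : ℤ)) B ×ˢ Finset.Icc (-(B : ℤ)) B : Finset (ℤ × ℤ)) :
      Set (ℤ × ℤ)) := by
    intro v hv
    obtain ⟨g1, g2⟩ := Pool.Agent.Y981.Sup.box_of hδ hδ2 hM (v := v) (h v hv)
    have g3 := key _ g1
    have g4 := key _ g2
    rw [abs_le] at g3 g4
    rw [Finset.mem_coe, Finset.mem_product, Finset.mem_Icc, Finset.mem_Icc]
    exact ⟨g3, g4⟩
  refine ⟨(Finset.finite_toSet _).subset hsub, ?_⟩
  have hc := Set.ncard_le_ncard hsub (Finset.finite_toSet _)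
  rw [Set.ncard_coe_finset, Finset.card_product, Int.card_Icc] at hc
  have hc' : D.ncard ≤ (2 * B + 1) * (2 * B + 1) := by
    refine hc.trans (le_of_eq ?_)
    congr 1 <;> omega
  have hc2 : (D.ncard : ℝ) ≤ (2 * (B : ℝ) + 1) ^ 2 := by
    have : (D.ncard : ℝ) ≤ (((2 * B + 1) * (2 * B + 1) : ℕ) : ℝ) := by exact_mod_cast hc'
    refine this.trans (le_of_eq ?_)
    push_cast
    ring
  refine hc2.trans (pow_le_pow_left₀ (by positivity) ?_ 2)
  have h6 : (8 * M + 5) / δ = (8 * M + 5) * (1 / δ) := by ring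
  rw [h6]
  have h7 : (2 * M + 1) * (⌈1 / δ⌉₊ : ℝ) ≤ (2 * M + 1) * (2 * (1 / δ)) :=
    mul_le_mul_of_nonneg_left (by linarith) (by positivity)
  nlinarith

/-- **Theorem.** Critical self-avoiding walks on the honeycomb lattice.
(1) For every finite set `D` of vertices and all `p`, `q` which, for some direction `w` of an edge,
are accessible from infinity outside `D` by paths which never go in the direction `w`, the critical
partition function of the trajectories in `D` from `p` to `q` is at most `24 |D|`.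
(2) Let `W` be a connected open set of the plane, `a ≠ b` points such that `W` contains a half-disc
with centre `a` on the side `ε u` and a half-disc with centre `b` on the side `ε' u`.  There are a
compact set `K` contained in `W` and `C ≥ 1` such that for every mesh `δ ≤ 1 / C`, all boundary
vertices `p` and `q` with `δ p` and `δ q` at distance at most `1 / C` of `a` and `b`, every set `T` of
vertices which contains the vertices of `K` and the half-discs of `p` and `q`, and every set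
`D ⊇ T` of vertices such that `p` and `q` are accessible as in (1):
if `D` is finite, then the path in `D` from `p` to `q` stays in `T` with probability at least
`δ ^ C / (24 |D|)` and the partition function is at least `δ ^ C`;
if `δ D` lies in the disc of radius `M ≥ 0`, then the partition function is at most
`24 (8 M + 5)² δ ^ (-2)`, and the path stays in `T` with probability at least
`δ ^ (C + 2) / (24 (8 M + 5)²)`. -/
theorem result :
    (∀ (D : Set (ℤ × ℤ)) (p q : ℤ × ℤ), D.Finite →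
      (∃ j, Access (edgeDir j) D p ∧ Access (edgeDir j) D q) → Z D p q ≤ 24 * D.ncard) ∧
    ∀ (W : Set ℂ), IsOpen W → IsConnected W → ∀ (a b : ℂ), a ≠ b →
    ∀ (ε ε' : ℝ), (ε = 1 ∨ ε = -1) → (ε' = 1 ∨ ε' = -1) → ∀ (r : ℝ), 0 < r →
    HD a ε r ⊆ W → HD b ε' r ⊆ W →
    ∃ K : Set ℂ, K ⊆ W ∧ IsCompact K ∧ ∃ C : ℕ, 1 ≤ C ∧ ∀ δ : ℝ, 0 < δ → C * δ ≤ 1 →
      ∀ (D T : Set (ℤ × ℤ)) (p q : ℤ × ℤ), Bd ε p → Bd ε' q →
      C * ‖(δ : ℂ) * emb p - a‖ ≤ 1 → C * ‖(δ : ℂ) * emb q - b‖ ≤ 1 →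
      (∀ v : ℤ × ℤ, (δ : ℂ) * emb v ∈ K → v ∈ T) → Hd δ ε r p ⊆ T → Hd δ ε' r q ⊆ T → T ⊆ D →
      (∃ j, Access (edgeDir j) D p ∧ Access (edgeDir j) D q) →
      (D.Finite → ENNReal.ofReal (δ ^ C) ≤ Z D p q ∧
        ENNReal.ofReal (δ ^ C) / (24 * D.ncard) ≤ P D p q T) ∧
      (∀ M : ℝ, 0 ≤ M → (∀ v ∈ D, ‖(δ : ℂ) * emb v‖ ≤ M) →
        ENNReal.ofReal (δ ^ C) ≤ Z D p q ∧
        Z D p q ≤ ENNReal.ofReal (24 * (8 * M + 5) ^ 2 / δ ^ 2) ∧
        ENNReal.ofReal (δ ^ (C + 2) / (24 * (8 * M + 5) ^ 2)) ≤ P D p q T) := by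
  refine ⟨fun D p q hD h => upper D hD p q h, ?_⟩
  intro W hW hc a b hab ε ε' hε hε' r hr ha hb
  obtain ⟨K, hK, hKc, C, hC, h⟩ :=
    Pool.Agent.Y981.Sup.low W hW hc a b hab ε ε' hε hε' r hr ha hb
  refine ⟨K, hK, hKc, C, by omega, fun δ hδ hCδ D T p q h1 h2 h3 h4 h5 h6 h7 h8 h9 => ?_⟩
  obtain ⟨-, hlow⟩ := h δ hδ hCδ T p q h1 h2 h3 h4 h5 h6 h7
  have hlowT : ENNReal.ofReal (δ ^ C) ≤ Z T p q := hlow T (le_refl T)
  have hlowD : ENNReal.ofReal (δ ^ C) ≤ Z D p q := hlow D h8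
  have hint : D ∩ T = T := Set.inter_eq_right.mpr h8
  have hfin : D.Finite → ENNReal.ofReal (δ ^ C) / (24 * D.ncard) ≤ P D p q T := by
    intro hD
    unfold P
    rw [hint]
    exact ENNReal.div_le_div hlowT (upper D hD p q h9)
  refine ⟨fun hD => ⟨hlowD, hfin hD⟩, fun M hM hdisc => ?_⟩
  have hC9 : (9 : ℝ) ≤ C := by exact_mod_cast hC
  have hδ2 : δ ≤ 1 / 2 := by nlinarith
  obtain ⟨hD, hcard⟩ := card_disc hδ hδ2 hM hdisc
  have hnum : (24 * D.ncard : ℝ≥0∞) ≤ ENNReal.ofReal (24 * (8 * M + 5) ^ 2 / δ ^ 2) := by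
    have e1 : (24 * D.ncard : ℝ≥0∞) = ENNReal.ofReal (24 * (D.ncard : ℝ)) := by
      rw [ENNReal.ofReal_mul (by norm_num), ENNReal.ofReal_natCast]
      congr 1
      norm_num
    rw [e1]
    apply ENNReal.ofReal_le_ofReal
    have e2 : 24 * (8 * M + 5) ^ 2 / δ ^ 2 = 24 * ((8 * M + 5) / δ) ^ 2 := by
      field_simp
    rw [e2]
    linarith
  have hup := (upper D hD p q h9).trans hnum
  refine ⟨hlowD, hup, ?_⟩
  have hpos : (0 : ℝ) < 24 * (8 * M + 5) ^ 2 / δ ^ 2 := by positivity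
  have e3 : ENNReal.ofReal (δ ^ (C + 2) / (24 * (8 * M + 5) ^ 2)) =
      ENNReal.ofReal (δ ^ C) / ENNReal.ofReal (24 * (8 * M + 5) ^ 2 / δ ^ 2) := by
    rw [← ENNReal.ofReal_div_of_pos hpos]
    congr 1
    rw [pow_add]
    field_simp
  rw [e3]
  unfold P
  rw [hint]
  exact ENNReal.div_le_div hlowT hup

end Pool.Agent.Results.MP_4960b8_pr.AccessibleEnds
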