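import Pool.Agent.Results.MP_46f0ca_pr.NoGaussianPieces
import Pool.Agent.H994.ON.Geo
import Pool.Agent.H994.ON.Pth

/-!
# The boundary path of the loop O(n) model: no limit is a deformed (fractional) Brownian path

Let the path of the loop O(n) model on the hexagonal lattice, for any `n ≥ 0` and `x > 0` (all phases),
along any sequence of finite domains, marked points and meshes, converge in law to a random curve,
in the uniform distance up to reparametrisation.  Then the limit is carried by the uniform limits of
simple curves, it is singular to the law of every random curve which contains a deformed piece (by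
a random homeomorphism of the plane and a random monotone change of time) of planar fractional
Brownian motion, for every Hurst index, or of planar Brownian motion, and it has nowhere a tangent
which is a linear image of the path of a fractional Brownian motion.  Moreover this is uniform: for
every Hurst index and `η > 0` there is `ε > 0` such that the path of the model in any domain, at any
mesh, for any `n` and `x`, in any parametrisation, even deformed by a random homeomorphism of the
plane, has uniform distance `> ε` from the fractional Brownian motion with probability `≥ 1 - η`, in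
every coupling.
-/

set_option autoImplicit false

open Filter Topology MeasureTheory ProbabilityTheory
open scoped NNReal

namespace Pool.Agent.Results.MP_4960b8_pr.NoBrownianLimits

open Pool.Agent.Results.MP_46f0ca_pr.NoGaussianPieces (LimitsOfSimpleCurves IsPlanarBrownian
  SingularToPieces IsFractionalBrownian HasTangent)

/-- The vertices of the hexagonal lattice. -/
abbrev Vx : Type := ℤ × ℤ × Bool

/-- The position of the vertex `(a, b, s)` in the plane: `√3 a + √3 b exp(iπ/3)`, plus `i` if `s` is
`true`. -/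
noncomputable def emb (v : Vx) : ℂ :=
  ⟨√3 * ((v.1 : ℝ) + v.2.1 / 2), 3 / 2 * (v.2.1 : ℝ) + if v.2.2 then 1 else 0⟩

/-- The hexagonal lattice: the edges join the vertices at distance `1`. -/
def hexagonal : SimpleGraph Vx where
  Adj u v := ‖emb u - emb v‖ = 1
  symm := ⟨fun u v h => by rw [norm_sub_rev]; exact h⟩
  loopless := ⟨fun u h => by simp at h⟩

/-- The graph with the edges `ω`. -/
def graph (ω : Finset (Sym2 Vx)) : SimpleGraph Vx := SimpleGraph.fromEdgeSet (ω : Set (Sym2 Vx))

/-- `ω` is a configuration of the O(n) model in the domain with the edges `E`, with marked points `a`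
and `b`: a subset of `E` such that the degree of `a` and `b` is `1` and the degree of every other
vertex is `0` or `2`. -/
def IsConf (E : Finset (Sym2 Vx)) (a b : Vx) (ω : Finset (Sym2 Vx)) : Prop :=
  ω ⊆ E ∧ ∀ v : Vx,
    ((v = a ∨ v = b) → {u | (graph ω).Adj v u}.ncard = 1) ∧
    (¬ (v = a ∨ v = b) → {u | (graph ω).Adj v u}.ncard = 0 ∨ {u | (graph ω).Adj v u}.ncard = 2)

/-- The number of closed loops of the configuration `ω`: of the connected components with at least one
edge which do not contain `a`. -/
noncomputable def loops (a : Vx) (ω : Finset (Sym2 Vx)) : ℕ :=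
  {C : (graph ω).ConnectedComponent | a ∉ C.supp ∧ ∃ u ∈ C.supp, ∃ v, (graph ω).Adj u v}.ncard

/-- The weight `x ^ (number of edges) * n ^ (number of closed loops)`. -/
noncomputable def weight (n x : ℝ) (a : Vx) (ω : Finset (Sym2 Vx)) : ℝ :=
  x ^ ω.card * n ^ loops a ω

/-- The polygonal curve through the points `p 0, …, p m`, parametrised by `[0, 1]` with constant
time for each step: the value at `t` is `p 0 + ∑_{k < m} clamp (m t - k) (p (k+1) - p k)`, where
`clamp u = max 0 (min 1 u)`. -/
noncomputable def polygon (m : ℕ) (p : ℕ → ℂ) : C(unitInterval, ℂ) where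
  toFun t := p 0 + ∑ k ∈ Finset.range m,
    ((max 0 (min 1 (m * (t : ℝ) - (k : ℝ))) : ℝ) : ℂ) * (p (k + 1) - p k)
  continuous_toFun := by fun_prop

/-- The lattice path `p` at mesh `δ`, as a curve. -/
noncomputable def curve (δ : ℝ) {G : SimpleGraph Vx} {u v : Vx} (p : G.Walk u v) :
    C(unitInterval, ℂ) :=
  polygon p.length fun i => δ * emb (p.getVert i)

/-- The configurations of the O(n) model, together with their path from `a` to `b` (each
configuration contains exactly one). -/
def pairs (E : Finset (Sym2 Vx)) (a b : Vx) :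
    Set (Σ ω : Finset (Sym2 Vx), (graph ω).Path a b) :=
  {q | IsConf E a b q.1}

/-- The mean of `g (γ_δ)` in the O(n) model with parameter `x`, in the domain with the edges `E` and
the marked points `a`, `b`. -/
noncomputable def mean (E : Finset (Sym2 Vx)) (a b : Vx) (δ n x : ℝ)
    (g : C(unitInterval, ℂ) → ℝ) : ℝ :=
  (∑ᶠ q ∈ pairs E a b, weight n x a q.1 * g (curve δ q.2.1)) /
    ∑ᶠ q ∈ pairs E a b, weight n x a q.1

/-- The curve `γ` with the time changed by the increasing bijection `τ` of `[0, 1]`. -/
noncomputable def reparam (τ : unitInterval ≃o unitInterval) (γ : C(unitInterval, ℂ)) : C(unitInterval, ℂ) where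
  toFun t := γ (τ t)
  continuous_toFun := γ.continuous.comp τ.continuous

/-- Convergence in law in the space of curves up to reparametrisation: the laws of the paths in the
domains `E j`, with marked points `a j`, `b j` and meshes `δ j`, converge to `ν`.  The bounded
continuous functions on this space are those on `C([0,1], ℂ)` which are invariant under increasing
reparametrisations. -/
def LawsConverge [MeasurableSpace C(unitInterval, ℂ)] (E : ℕ → Finset (Sym2 Vx)) (a b : ℕ → Vx)
    (δ : ℕ → ℝ) (n x : ℝ) (ν : Measure C(unitInterval, ℂ)) : Prop :=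
  ∀ f : BoundedContinuousFunction C(unitInterval, ℂ) ℝ, (∀ τ γ, f (reparam τ γ) = f γ) →
    Tendsto (fun j => mean (E j) (a j) (b j) (δ j) n x f) atTop (𝓝 (∫ γ, f γ ∂ν))

/-- The curve `X` is a deformed self-avoiding path of the hexagonal lattice: `X t = h (γ (τ t))`, where
`γ` is a self-avoiding path between two different vertices, at any mesh, `h` is a homeomorphism of the
plane and `τ` is a homeomorphism of `[0, 1]`. -/
def IsDeformedPath (X : C(unitInterval, ℂ)) : Prop :=
  ∃ (u v : Vx) (p : hexagonal.Path u v) (δ : ℝ) (h : ℂ ≃ₜ ℂ) (τ : unitInterval ≃ₜ unitInterval),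
    u ≠ v ∧ 0 < δ ∧ ∀ t, X t = h (curve δ p.1 (τ t))

theorem unique_path (E : Finset (Sym2 Vx)) (a b : Vx) (ω : Finset (Sym2 Vx))
    (hω : IsConf E a b ω) : ∃ p : (graph ω).Path a b, ∀ q : (graph ω).Path a b, q = p := by
  have hfin : {v | ∃ u, (graph ω).Adj v u}.Finite := by
    have h1 : (⋃ e ∈ (ω : Set (Sym2 Vx)), {v | v ∈ e}).Finite := by
      refine ω.finite_toSet.biUnion fun e _ => ?_
      induction e using Sym2.ind with
      | h x y =>
        refine ((Set.finite_singleton y).insert x).subset ?_
        intro v hv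
        exact Sym2.mem_iff.1 hv
    refine h1.subset ?_
    rintro v ⟨u, hu⟩
    unfold graph at hu
    rw [SimpleGraph.fromEdgeSet_adj] at hu
    exact Set.mem_biUnion hu.1 (Sym2.mem_mk_left v u)
  have hfin' : ∀ v, {u | (graph ω).Adj v u}.Finite :=
    fun v => hfin.subset fun u hu => ⟨v, SimpleGraph.Adj.symm hu⟩
  have ha := (hω.2 a).1 (Or.inl rfl)
  obtain ⟨p⟩ := (Pool.Agent.H994.ON.exists_path (graph ω) hfin ha (fun v h1 h2 =>
    (hω.2 v).2 (by tauto)) : (graph ω).Reachable a b)
  classical
  refine ⟨p.toPath, fun q => ?_⟩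
  refine Pool.Agent.H994.ON.path_unique (graph ω) hfin' ha (fun v => ?_) q p.toPath
  by_cases hv : v = a ∨ v = b
  · rw [(hω.2 v).1 hv]; norm_num
  · rcases (hω.2 v).2 hv with h | h <;> rw [h] <;> norm_num

theorem curve_injective {G : SimpleGraph Vx} (hG : ∀ u v, G.Adj u v → hexagonal.Adj u v) {u v : Vx}
    (p : G.Path u v) (huv : u ≠ v) {δ : ℝ} (hδ : 0 < δ) : Function.Injective (curve δ p.1) := by
  refine Pool.Agent.H994.ON.polygon_injective (m := p.1.length) ?_ p.1.getVert ?_ ?_ hδ.ne'
  · by_contra h
    apply huv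
    exact SimpleGraph.Walk.eq_of_length_eq_zero (p := p.1) (by omega)
  · intro i hi
    exact hG _ _ (p.1.adj_getVert_succ hi)
  · intro i hi j hj hij
    exact p.2.getVert_injOn (by simpa using hi) (by simpa using hj) hij

theorem graph_adj {E ω : Finset (Sym2 Vx)} (hE : ∀ e ∈ E, e ∈ hexagonal.edgeSet) (hω : ω ⊆ E)
    (u v : Vx) (h : (graph ω).Adj u v) : hexagonal.Adj u v := by
  unfold graph at h
  rw [SimpleGraph.fromEdgeSet_adj] at h
  exact (SimpleGraph.mem_edgeSet _).1 (hE _ (hω (by exact_mod_cast h.1)))

theorem infDist_reparam (τ : unitInterval ≃o unitInterval) (γ : C(unitInterval, ℂ)) :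
    Metric.infDist (reparam τ γ) LimitsOfSimpleCurves = Metric.infDist γ LimitsOfSimpleCurves := by
  have h1 : ∀ (σ : unitInterval ≃o unitInterval) (γ γ' : C(unitInterval, ℂ)),
      dist (reparam σ γ) (reparam σ γ') ≤ dist γ γ' := by
    intro σ γ γ'
    rw [ContinuousMap.dist_le dist_nonneg]
    intro t
    exact ContinuousMap.dist_apply_le_dist (σ t)
  have h2 : ∀ (σ : unitInterval ≃o unitInterval) (γ : C(unitInterval, ℂ)),
      reparam σ (reparam σ.symm γ) = γ := by
    intro σ γ
    ext t
    change γ (σ.symm (σ t)) = γ t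
    rw [σ.symm_apply_apply]
  have h3 : ∀ (σ : unitInterval ≃o unitInterval) (γ : C(unitInterval, ℂ)),
      Metric.infDist (reparam σ γ) LimitsOfSimpleCurves ≤
        Metric.infDist γ LimitsOfSimpleCurves := by
    intro σ γ
    unfold LimitsOfSimpleCurves
    rw [Metric.infDist_closure, Metric.infDist_closure]
    have hne : {γ : C(unitInterval, ℂ) | Function.Injective γ}.Nonempty :=
      ⟨(⟨fun x : unitInterval => ((x : ℝ) : ℂ), by fun_prop⟩ : C(unitInterval, ℂ)), by
        intro x y hxy
        exact Subtype.ext (Complex.ofReal_injective hxy)⟩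
    rw [Metric.le_infDist hne]
    intro γ' hγ'
    refine (Metric.infDist_le_dist_of_mem (y := reparam σ γ') ?_).trans (h1 σ γ γ')
    intro x y hxy
    exact σ.injective (hγ' hxy)
  apply le_antisymm (h3 τ γ)
  calc Metric.infDist γ LimitsOfSimpleCurves
      = Metric.infDist (reparam τ.symm (reparam τ γ)) LimitsOfSimpleCurves := by
        have := h2 τ.symm γ
        rw [OrderIso.symm_symm] at this
        rw [this]
    _ ≤ _ := h3 _ _

theorem mean_zero {E : Finset (Sym2 Vx)} {a b : Vx} {δ n x : ℝ} {g : C(unitInterval, ℂ) → ℝ}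
    (h : ∀ q ∈ pairs E a b, g (curve δ q.2.1) = 0) : mean E a b δ n x g = 0 := by
  unfold mean
  rw [finsum_mem_congr rfl (fun q hq => by rw [h q hq, mul_zero] :
    ∀ q ∈ pairs E a b, weight n x a q.1 * g (curve δ q.2.1) = 0), finsum_mem_zero, zero_div]

theorem carried [MeasurableSpace C(unitInterval, ℂ)] [BorelSpace C(unitInterval, ℂ)]
    (E : ℕ → Finset (Sym2 Vx)) (a b : ℕ → Vx) (δ : ℕ → ℝ) (n x : ℝ)
    (ν : Measure C(unitInterval, ℂ)) [IsProbabilityMeasure ν]
    (hE : ∀ j, ∀ e ∈ E j, e ∈ hexagonal.edgeSet) (hab : ∀ j, a j ≠ b j) (hδ : ∀ j, 0 < δ j)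
    (hν : LawsConverge E a b δ n x ν) : ν LimitsOfSimpleCurvesᶜ = 0 := by
  have hne : LimitsOfSimpleCurves.Nonempty :=
    ⟨_, subset_closure (show (⟨fun x : unitInterval => ((x : ℝ) : ℂ), by fun_prop⟩ :
      C(unitInterval, ℂ)) ∈ {γ : C(unitInterval, ℂ) | Function.Injective γ} from by
        intro x y hxy
        exact Subtype.ext (Complex.ofReal_injective hxy))⟩
  have hc : Continuous fun γ : C(unitInterval, ℂ) =>
      min 1 (Metric.infDist γ LimitsOfSimpleCurves) := by
    have := Metric.continuous_infDist_pt LimitsOfSimpleCurves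
    fun_prop
  let f : BoundedContinuousFunction C(unitInterval, ℂ) ℝ :=
    BoundedContinuousFunction.ofNormedAddCommGroup _ hc 1 (fun γ => by
      have h0 : 0 ≤ Metric.infDist γ LimitsOfSimpleCurves := Metric.infDist_nonneg
      rw [Real.norm_eq_abs, abs_of_nonneg (le_min zero_le_one h0)]
      exact min_le_left _ _)
  have hf : ∀ γ, f γ = min 1 (Metric.infDist γ LimitsOfSimpleCurves) := fun γ => rfl
  have hf0 : ∀ γ, 0 ≤ f γ := fun γ => by
    rw [hf]
    exact le_min zero_le_one Metric.infDist_nonneg
  have h1 := hν f (fun τ γ => by rw [hf, hf, infDist_reparam])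
  have e1 : (fun j => mean (E j) (a j) (b j) (δ j) n x f) = fun _ => 0 := by
    funext j
    apply mean_zero
    intro q hq
    have hmem : curve (δ j) q.2.1 ∈ LimitsOfSimpleCurves :=
      subset_closure (curve_injective (graph_adj (hE j) hq.1) q.2 (hab j) (hδ j))
    rw [hf, Metric.infDist_zero_of_mem hmem]
    simp
  rw [e1] at h1
  have h2 : ∫ γ, f γ ∂ν = 0 := tendsto_nhds_unique h1 tendsto_const_nhds
  have h3 := (integral_eq_zero_iff_of_nonneg (μ := ν) (f := fun γ => f γ) hf0 (f.integrable ν)).1 h2
  refine measure_eq_zero_iff_ae_notMem.2 ?_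
  filter_upwards [h3] with γ hγ
  intro hmem
  apply hmem
  have h4 : min 1 (Metric.infDist γ LimitsOfSimpleCurves) = 0 := hγ
  have h5 : Metric.infDist γ LimitsOfSimpleCurves = 0 := by
    rcases min_choice (1 : ℝ) (Metric.infDist γ LimitsOfSimpleCurves) with h | h
    · rw [h] at h4; norm_num at h4
    · rw [h] at h4; exact h4
  exact (isClosed_closure.mem_iff_infDist_zero hne).2 h5

theorem deformed_mem {X : C(unitInterval, ℂ)} (h : IsDeformedPath X) :
    X ∈ LimitsOfSimpleCurves := by
  obtain ⟨u, v, p, δ, h, τ, huv, hδ, hx⟩ := h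
  apply subset_closure
  intro x y hxy
  rw [hx, hx] at hxy
  exact τ.injective (curve_injective (fun _ _ h => h) p huv hδ (h.injective hxy))

/-- **Theorem.** (0) Each configuration contains exactly one self-avoiding path from `a` to `b`.
Let `ν` be the limit in law, in the space of curves up to reparametrisation, of
the path of the loop O(n) model with `n ≥ 0`, `x > 0`, in any finite domains `E j` of the hexagonal
lattice, with marked points `a j ≠ b j` and meshes `δ j`.
(1) `ν` is carried by the uniform limits of simple curves.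
(2) For the planar fractional Brownian motion with any Hurst index `0 < H < 1`, and for the planar
Brownian motion on `[0, ∞)`: if a random curve `Γ` almost surely contains a nonconstant deformation
of a piece of the path, then `ν` is singular to the law of `Γ`, and to every measure which is
absolutely continuous with respect to this law; if this happens with positive probability, then `ν`
is not the law of `Γ`.
(3) Let `G` be a planar fractional Brownian motion with Hurst index `0 < H < 1` and let `Γ` be a random
curve on the same probability space, the law of which is `ν`, or absolutely continuous with respect to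
`ν`.  Then almost surely there is no time `0 ≤ t₀ < 1` at which `Γ` has the tangent `A G`, `A` an
invertible linear map, along a given sequence of scales.
(4) For every Hurst index `0 < H < 1` and `η > 0` there is `ε > 0` such that
`P (‖X - G‖ ≤ ε) ≤ η` for every planar fractional Brownian motion `G` with index `H` and every
random curve `X` on the same probability space which is almost surely a deformed self-avoiding path
of the hexagonal lattice, at any mesh. -/
theorem result [MeasurableSpace C(unitInterval, ℂ)] [BorelSpace C(unitInterval, ℂ)] :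
    (∀ (E : Finset (Sym2 Vx)) (a b : Vx) (ω : Finset (Sym2 Vx)), IsConf E a b ω →
      ∃ p : (graph ω).Path a b, ∀ q : (graph ω).Path a b, q = p) ∧
    (∀ (E : ℕ → Finset (Sym2 Vx)) (a b : ℕ → Vx) (δ : ℕ → ℝ) (n x : ℝ)
      (ν : Measure C(unitInterval, ℂ)) [IsProbabilityMeasure ν],
      (∀ j, ∀ e ∈ E j, e ∈ hexagonal.edgeSet) → (∀ j, a j ≠ b j) → (∀ j, 0 < δ j) →
      0 ≤ n → 0 < x → LawsConverge E a b δ n x ν →
      ν LimitsOfSimpleCurvesᶜ = 0 ∧
      (∀ (Ω : Type) (_ : MeasurableSpace Ω) (P : Measure Ω) (H : ℝ)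
        (G : Ω → C(unitInterval, ℂ)), 0 < H → H < 1 → IsFractionalBrownian H G P →
        SingularToPieces ν P fun ω t => G ω t) ∧
      (∀ (Ω : Type) (_ : MeasurableSpace Ω) (P : Measure Ω) (W : ℝ≥0 → Ω → ℂ),
        IsPlanarBrownian W P → SingularToPieces ν P fun ω t => W t ω) ∧
      (∀ (Ω : Type) (_ : MeasurableSpace Ω) (P : Measure Ω) (H : ℝ)
        (G Γ : Ω → C(unitInterval, ℂ)), 0 < H → H < 1 → IsFractionalBrownian H G P →
        Measurable Γ → P.map Γ ≪ ν → ∀ ε : ℕ → ℝ, (∀ k, 0 < ε k) → Tendsto ε atTop (𝓝 0) →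
        ∀ᵐ ω ∂P, ∀ t₀ : ℝ, 0 ≤ t₀ → t₀ < 1 → ¬ HasTangent H ε t₀ (G ω) (Γ ω))) ∧
    (∀ H : ℝ, 0 < H → H < 1 → ∀ η : ℝ, 0 < η → ∃ ε : ℝ, 0 < ε ∧
      ∀ (Ω : Type) (_ : MeasurableSpace Ω) (P : Measure Ω) (G X : Ω → C(unitInterval, ℂ)),
        IsFractionalBrownian H G P → (∀ᵐ ω ∂P, IsDeformedPath (X ω)) →
        P {ω | ‖X ω - G ω‖ ≤ ε} ≤ ENNReal.ofReal η) := by
  have hc : Pool.Agent.H994.FB.S_cnd :=
    Pool.Agent.H994.FB.t_cnd Pool.Agent.H994.FB.t_kint Pool.Agent.H994.FB.t_trig
  have hseg : Pool.Agent.H994.FQ.S_seg := Pool.Agent.H994.FQ.t_seg Pool.Agent.H994.FQ.t_cov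
  have hind : Pool.Agent.H994.FQ.S_indep :=
    Pool.Agent.H994.FQ.t_indep Pool.Agent.H994.FQ.t_borel Pool.Agent.H994.FQ.t_cov
      Pool.Agent.H994.FQ.t_small (Pool.Agent.H994.FQ.t_reg hc)
  have huniq : Pool.Agent.H994.FQ.S_uniq :=
    Pool.Agent.H994.FQ.t_uniq Pool.Agent.H994.FQ.t_borel Pool.Agent.H994.FQ.t_cov
  have hsmul : Pool.Agent.H994.FQ.S_smul :=
    Pool.Agent.H994.FQ.t_smul Pool.Agent.H994.FQ.t_cov
  have hzo : Pool.Agent.H994.FQ.S_zo := Pool.Agent.H994.FQ.t_zo Pool.Agent.H994.FQ.t_borel hind
  have hnull : Pool.Agent.H994.FQ.S_null := Pool.Agent.H994.FQ.t_null huniq hseg hsmul hzo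
  have hcl : MeasurableSet LimitsOfSimpleCurves :=
    (show IsClosed LimitsOfSimpleCurves from isClosed_closure).measurableSet
  refine ⟨unique_path, ?_, ?_⟩
  · intro E a b δ n x ν _ hE hab hδ _ _ hν
    have h1 := carried E a b δ n x ν hE hab hδ hν
    refine ⟨h1, ?_, ?_, ?_⟩
    · intro Ω _ P H G h0 hH hG
      exact Pool.Agent.Results.MP_46f0ca_pr.NoGaussianPieces.singular ν P _ h1
        (Pool.Agent.Results.MP_46f0ca_pr.NoGaussianPieces.fractional hc hnull hseg P G H h0 hH hG)
    · intro Ω _ P W hW
      exact Pool.Agent.Results.MP_46f0ca_pr.NoGaussianPieces.singular ν P _ h1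
        (Pool.Agent.Results.MP_46f0ca_pr.NoGaussianPieces.brownian P W hW)
    · intro Ω _ P H G Γ h0 hH hG hΓ he ε hε hε0
      have h3 := he h1
      rw [Measure.map_apply hΓ hcl.compl] at h3
      have h4 := measure_eq_zero_iff_ae_notMem.1 h3
      have h5 := ae_of_ae_map hG.meas.aemeasurable
        (Pool.Agent.H994.FQ.QT.all_tangent hc huniq hseg hsmul hzo inferInstance inferInstance
          (P.map G) h0 hH one_pos (Pool.Agent.Results.MP_46f0ca_pr.NoGaussianPieces.isF hG) hε hε0)
      filter_upwards [h4, h5] with ω h6 h7 t₀ h8 h9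
      exact h7 t₀ (Γ ω) h8 h9 (by
        by_contra hc
        exact h6 hc)
  · intro H h0 hH η hη
    obtain ⟨ε, hε, h⟩ :=
      Pool.Agent.H994.FQ.QF.far hc hnull huniq inferInstance inferInstance h0 hH η hη
    refine ⟨ε, hε, fun Ω _ P G X hG hX => ?_⟩
    refine le_trans ?_ (h (P.map G) (Pool.Agent.Results.MP_46f0ca_pr.NoGaussianPieces.isF hG))
    rw [Measure.map_apply hG.meas (isClosed_le (Metric.continuous_infDist_pt _)
      continuous_const).measurableSet]
    apply measure_mono_ae
    filter_upwards [hX] with ω hω h2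
    have h3 : X ω ∈ LimitsOfSimpleCurves := deformed_mem hω
    refine (Metric.infDist_le_dist_of_mem h3).trans ?_
    rw [dist_comm, dist_eq_norm]
    exact h2

end Pool.Agent.Results.MP_4960b8_pr.NoBrownianLimits
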